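import Pool.Agent.H95.WTrans

set_option autoImplicit false
open MeasureTheory Pool.Agent.H95.WTransDefs

theorem Pool.Agent.Results.MP_e40715_an.NotHC.result
    (p : ENNReal) (hp : p ≠ 0) (φ : ℝ → ℂ) (hφ : MemLp φ ⊤ m01) (α : ℝ) (f : ℝ → ℂ)
    (hf : MemLp f p m01) :
    ¬ ∀ g : ℝ → ℂ, MemLp g p m01 → ∀ ε : ENNReal, 0 < ε →
      ∃ n : ℕ, eLpNorm ((wt φ α)^[n] f - g) p m01 < ε :=
  Pool.Agent.H95.WTrans.main hp hφ α hf
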